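import Pool.Agent.H73.GWT.Stmts

/-! Project GWT: row TDC (decoding a tracked letter from the type). -/

set_option autoImplicit false
open Classical
namespace GWT

theorem TDC {ι G V : Type*} [Fintype ι] [Group G] [MulAction G V] (C : Code ι G V)
    (h1 : TPTStmt C) : TDCStmt C := by
  intro m g g' s t t₁ t₂ Q P hg hg' a1 a2 a3 b1 b2 b3 epos ht1 hs2 hs2'
  obtain ⟨h, p1, p2, p3⟩ := hg
  obtain ⟨h', q1, q2, q3⟩ := hg'
  have A1 := h1 g h t₁ t₂ Q P (m • C.c s • C.o) p1 p2 p3 a1 ht1 (by omega)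
  have A2 := h1 g h t₁ t₂ Q P (m • (C.c s) ^ 2 • C.o) p1 p2 p3 a2 (by omega) (by omega)
  have B1 := h1 g' h' t₁ t₂ Q P (m • C.c t • C.o) q1 q2 q3 b1 (by omega) (by omega)
  have B2 := h1 g' h' t₁ t₂ Q P (m • (C.c t) ^ 2 • C.o) q1 q2 q3 b2 (by omega) (by omega)
  have e1 : h • m • C.c s • C.o = h' • m • C.c t • C.o := by
    refine UNQ C.tree A1.1 B1.1 ?_
    have x1 := A1.2
    have x2 := B1.2
    show C.d Q (h • m • C.c s • C.o) = C.d Q (h' • m • C.c t • C.o)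
    omega
  have e2 : h • m • (C.c s) ^ 2 • C.o = h' • m • (C.c t) ^ 2 • C.o := by
    refine UNQ C.tree A2.1 B2.1 ?_
    have x1 := A2.2
    have x2 := B2.2
    show C.d Q (h • m • (C.c s) ^ 2 • C.o) = C.d Q (h' • m • (C.c t) ^ 2 • C.o)
    omega
  refine C.p3 s t ((C.c t)⁻¹ * m⁻¹ * h'⁻¹ * h * m * C.c s) ?_ ?_
  · rw [mul_smul, mul_smul, mul_smul, e1, mul_smul, mul_smul]
    simp only [inv_smul_smul]
  · rw [pow_two, pow_two, mul_smul, mul_smul] at e2
    rw [mul_smul, mul_smul, mul_smul, e2, mul_smul, mul_smul]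
    simp only [inv_smul_smul]

end GWT
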